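import Mathlib

set_option autoImplicit false

namespace Pool.Agent.Results.MP_d0ec72_al.NoethResNilp

open Polynomial

/-- The positive part of the Witt algebra over `k`: the space of polynomials, where `f` stands for
the vector field `f x² d/dx`; the basis element `x ^ n` is `e_{n+1} = x ^ (n+2) d/dx`. -/
def WPos (k : Type*) [Field k] : Type _ := k[X]

variable {k : Type*} [Field k]

noncomputable instance : AddCommGroup (WPos k) := inferInstanceAs (AddCommGroup k[X])
noncomputable instance : Module k (WPos k) := inferInstanceAs (Module k k[X])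

/-- The underlying polynomial. -/
noncomputable def toPoly : WPos k ≃ₗ[k] k[X] := LinearEquiv.refl k k[X]

/-- The bracket of vector fields: `[f x² ∂, g x² ∂] = x² (f g' - g f') x² ∂`. -/
noncomputable instance : LieRing (WPos k) where
  bracket f g := toPoly.symm (X ^ 2 * (toPoly f * derivative (toPoly g) -
    toPoly g * derivative (toPoly f)))
  add_lie f g h := by
    rw [← map_add toPoly.symm]
    congr 1
    simp only [map_add]
    ring
  lie_add f g h := by
    rw [← map_add toPoly.symm]
    congr 1
    simp only [map_add]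
    ring
  lie_self f := by
    simp
  leibniz_lie f g h := by
    rw [← map_add toPoly.symm]
    congr 1
    simp only [LinearEquiv.apply_symm_apply, derivative_mul, derivative_sub, derivative_X_pow]
    push_cast
    ring

lemma toPoly_lie (f g : WPos k) : toPoly ⁅f, g⁆ = X ^ 2 * (toPoly f * derivative (toPoly g) -
    toPoly g * derivative (toPoly f)) := rfl

noncomputable instance : LieAlgebra k (WPos k) where
  lie_smul c f g := by
    apply toPoly.injective
    rw [map_smul, toPoly_lie, toPoly_lie, map_smul]
    simp only [smul_eq_C_mul, derivative_C_mul]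
    ring

/-! ### The maximal condition -/

/-- A set of natural numbers closed under sums of distinct elements. -/
def DClosed (S : Set ℕ) : Prop := ∀ i ∈ S, ∀ j ∈ S, i ≠ j → i + j ∈ S

/-- Increasing sequences of closed sets of positive integers are eventually constant. -/
lemma chain_stable (T : ℕ → Set ℕ) (hmono : Monotone T) (hcl : ∀ l, DClosed (T l))
    (hpos : ∀ l, ∀ i ∈ T l, 0 < i) : ∃ n, ∀ l, n ≤ l → T l ⊆ T n := by
  classical
  by_cases hne : ∃ l m, m ∈ T l
  swap
  · refine ⟨0, fun l _ x hx => (hne ⟨l, x, hx⟩).elim⟩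
  obtain ⟨l0, m, hm⟩ := hne
  have hm0 : 0 < m := hpos _ _ hm
  have key : ∀ r : ℕ, ∃ l : ℕ, (∃ l' s, s ∈ T l' ∧ s % m = r ∧ s ≠ m) →
      ∃ a ∈ T l, a % m = r ∧ a ≠ m ∧ ∀ l' s, s ∈ T l' → s % m = r → s ≠ m → a ≤ s := by
    intro r
    by_cases h : ∃ s, ∃ l', s ∈ T l' ∧ s % m = r ∧ s ≠ m
    · obtain ⟨l, hl, h2, h3⟩ := Nat.find_spec h
      refine ⟨l, fun _ => ⟨Nat.find h, hl, h2, h3, ?_⟩⟩
      intro l' s hs h4 h5
      exact Nat.find_min' h ⟨l', hs, h4, h5⟩
    · exact ⟨0, fun ⟨l', s, h'⟩ => (h ⟨s, l', h'⟩).elim⟩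
  choose l hl using key
  refine ⟨max l0 ((Finset.range m).sup l), ?_⟩
  set n := max l0 ((Finset.range m).sup l) with hn
  intro l' _ s hs
  have hmn : m ∈ T n := hmono (le_max_left _ _) hm
  by_cases hsm : s = m
  · rw [hsm]; exact hmn
  obtain ⟨a, ha, h1, h2, h3⟩ := hl (s % m) ⟨l', s, hs, rfl, hsm⟩
  have han : a ∈ T n := by
    refine hmono ?_ ha
    refine le_trans ?_ (le_max_right _ _)
    exact Finset.le_sup (f := l) (Finset.mem_range.mpr (Nat.mod_lt _ hm0))
  have has : a ≤ s := h3 l' s hs rfl hsm
  obtain ⟨q, hq⟩ : ∃ q, s = a + q * m := by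
    obtain ⟨q, hq⟩ := (Nat.modEq_iff_dvd' has).mp h1
    exact ⟨q, by rw [mul_comm, ← hq]; omega⟩
  have ha0 : 0 < a := hpos _ _ han
  have hall : ∀ q : ℕ, a + q * m ∈ T n := by
    intro q
    induction q with
    | zero => simpa using han
    | succ q ih =>
      have hne : a + q * m ≠ m := by
        rcases Nat.eq_zero_or_pos q with h | h
        · subst h; simpa using h2
        · have : m ≤ q * m := Nat.le_mul_of_pos_left _ h
          omega
      have := hcl n _ ih _ hmn hne
      rwa [show a + (q + 1) * m = a + q * m + m by ring]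
  rw [hq]; exact hall q

/-- The set of weights of a subalgebra: `n+1` for `n` the degrees of its nonzero elements. -/
def wt (H : LieSubalgebra k (WPos k)) : Set ℕ :=
  {n | ∃ f ∈ H, toPoly f ≠ 0 ∧ (toPoly f).natDegree + 1 = n}

lemma natDegree_theta (f : k[X]) : (X * derivative f).natDegree ≤ f.natDegree := by
  rcases Nat.eq_zero_or_pos f.natDegree with hf | hf
  · rw [Polynomial.eq_C_of_natDegree_eq_zero hf]
    simp
  · refine natDegree_mul_le.trans ?_
    have := natDegree_derivative_lt (p := f) (by omega)
    have h2 : (X : k[X]).natDegree ≤ 1 := natDegree_X_le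
    omega

lemma coeff_theta (f : k[X]) (n : ℕ) : (X * derivative f).coeff n = n * f.coeff n := by
  cases n with
  | zero => simp
  | succ n => rw [coeff_X_mul, coeff_derivative]; push_cast; ring

lemma bracket_eq (f g : k[X]) : X ^ 2 * (f * derivative g - g * derivative f) =
    X * (f * (X * derivative g) - g * (X * derivative f)) := by
  ring

lemma natDegree_bracket_le (f g : k[X]) : (X ^ 2 * (f * derivative g -
    g * derivative f)).natDegree ≤ f.natDegree + g.natDegree + 1 := by
  rw [bracket_eq]
  refine natDegree_mul_le.trans ?_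
  have h1 : (f * (X * derivative g)).natDegree ≤ f.natDegree + g.natDegree :=
    natDegree_mul_le.trans (Nat.add_le_add_left (natDegree_theta g) _)
  have h2 : (g * (X * derivative f)).natDegree ≤ f.natDegree + g.natDegree :=
    natDegree_mul_le.trans (by rw [add_comm]; exact Nat.add_le_add_right (natDegree_theta f) _)
  have h3 := natDegree_sub_le_of_le h1 h2
  have h4 : (X : k[X]).natDegree ≤ 1 := natDegree_X_le
  rw [max_self] at h3
  omega

lemma coeff_bracket (f g : k[X]) : (X ^ 2 * (f * derivative g - g * derivative f)).coeff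
      (f.natDegree + g.natDegree + 1) =
    ((g.natDegree : k) - (f.natDegree : k)) * (f.leadingCoeff * g.leadingCoeff) := by
  rw [bracket_eq, coeff_X_mul, coeff_sub,
    coeff_mul_add_eq_of_natDegree_le (df := f.natDegree) (dg := g.natDegree) le_rfl
      (natDegree_theta g),
    add_comm f.natDegree g.natDegree,
    coeff_mul_add_eq_of_natDegree_le (df := g.natDegree) (dg := f.natDegree) le_rfl
      (natDegree_theta f),
    coeff_theta, coeff_theta, leadingCoeff, leadingCoeff]
  ring

lemma wt_closed [CharZero k] (H : LieSubalgebra k (WPos k)) : DClosed (wt H) := by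
  rintro _ ⟨f, hf, hf0, rfl⟩ _ ⟨g, hg, hg0, rfl⟩ hne
  refine ⟨⁅f, g⁆, H.lie_mem hf hg, ?_⟩
  have hne' : (toPoly g).natDegree ≠ (toPoly f).natDegree := fun h => hne (by rw [h])
  have hc : (toPoly ⁅f, g⁆).coeff ((toPoly f).natDegree + (toPoly g).natDegree + 1) ≠ 0 := by
    rw [toPoly_lie, coeff_bracket]
    refine mul_ne_zero (sub_ne_zero.mpr ?_) (mul_ne_zero (leadingCoeff_ne_zero.mpr hf0)
      (leadingCoeff_ne_zero.mpr hg0))
    exact_mod_cast hne'
  have h1 : (toPoly ⁅f, g⁆).natDegree ≤ (toPoly f).natDegree + (toPoly g).natDegree + 1 := by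
    rw [toPoly_lie]; exact natDegree_bracket_le _ _
  have h2 := le_natDegree_of_ne_zero hc
  refine ⟨?_, by omega⟩
  intro h0
  rw [h0] at hc
  simp at hc

lemma wt_pos (H : LieSubalgebra k (WPos k)) : ∀ i ∈ wt H, 0 < i := by
  rintro _ ⟨f, hf, hf0, rfl⟩
  omega

lemma wt_mono {H H' : LieSubalgebra k (WPos k)} (h : H ≤ H') : wt H ⊆ wt H' := by
  rintro _ ⟨f, hf, hf0, rfl⟩
  exact ⟨f, h hf, hf0, rfl⟩

lemma le_of_wt {H H' : LieSubalgebra k (WPos k)} (h : H ≤ H') (hw : wt H' ⊆ wt H) : H' ≤ H := by
  have key : ∀ d : ℕ, ∀ f ∈ H', (toPoly f).natDegree < d → f ∈ H := by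
    intro d
    induction d with
    | zero => intro f _ h; omega
    | succ d ih =>
      intro f hf hd
      by_cases hf0 : toPoly f = 0
      · have : f = 0 := by simpa using hf0
        rw [this]; exact H.zero_mem
      obtain ⟨g, hg, hg0, hgd⟩ := hw ⟨f, hf, hf0, rfl⟩
      have hgd' : (toPoly g).natDegree = (toPoly f).natDegree := by omega
      set c := (toPoly f).leadingCoeff / (toPoly g).leadingCoeff with hc
      have hlg : (toPoly g).leadingCoeff ≠ 0 := leadingCoeff_ne_zero.mpr hg0
      have hmem : f - c • g ∈ H' := sub_mem hf (H'.smul_mem c (h hg))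
      have hdeg : (toPoly (f - c • g)).degree < (toPoly f).degree := by
        rw [map_sub, map_smul]
        apply degree_sub_lt_left
        · rw [smul_eq_C_mul, degree_C_mul, degree_eq_natDegree hf0, degree_eq_natDegree hg0, hgd']
          rw [hc]
          exact div_ne_zero (leadingCoeff_ne_zero.mpr hf0) hlg
        · exact hf0
        · rw [smul_eq_C_mul, leadingCoeff_mul, leadingCoeff_C, hc]
          field_simp
      have : f - c • g ∈ H := by
        by_cases h0 : toPoly (f - c • g) = 0
        · have : f - c • g = 0 := by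
            apply toPoly.injective
            rw [h0, map_zero]
          rw [this]; exact H.zero_mem
        apply ih _ hmem
        have := natDegree_lt_natDegree h0 hdeg
        omega
      have h2 := H.add_mem this (H.smul_mem c hg)
      simpa using h2
  intro f hf
  exact key _ f hf (Nat.lt_succ_self _)

lemma wpos_noetherian [CharZero k] : WellFoundedGT (LieSubalgebra k (WPos k)) := by
  rw [wellFoundedGT_iff_monotone_chain_condition]
  intro a
  obtain ⟨n, hn⟩ := chain_stable (fun l => wt (a l)) (fun i j h => wt_mono (a.monotone h))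
    (fun l => wt_closed _) (fun l => wt_pos _)
  refine ⟨n, fun m hm => le_antisymm (a.monotone hm) (le_of_wt (a.monotone hm) (hn m hm))⟩

/-! ### Residual nilpotence -/

lemma dvd_bracket {n : ℕ} (f g : k[X]) (h : X ^ n ∣ g) :
    X ^ (n + 1) ∣ X ^ 2 * (f * derivative g - g * derivative f) := by
  obtain ⟨q, rfl⟩ := h
  have h1 : (X : k[X]) * derivative (X ^ n) = C (n : k) * X ^ n := by
    cases n with
    | zero => simp
    | succ n =>
      rw [derivative_X_pow]
      simp only [Nat.add_sub_cancel]
      ring
  refine ⟨f * (C (n : k) * q) + X * (f * derivative q) - X * (q * derivative f), ?_⟩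
  rw [derivative_mul, pow_succ]
  linear_combination (X * f * q) * h1

/-- The ideal of all `f` divisible by `X ^ n`. -/
noncomputable def filt (k : Type*) [Field k] (n : ℕ) : LieIdeal k (WPos k) where
  carrier := {f | X ^ n ∣ toPoly f}
  add_mem' := by
    intro f g hf hg
    change X ^ n ∣ toPoly (f + g)
    rw [map_add]
    exact dvd_add hf hg
  zero_mem' := by simp
  smul_mem' := by
    intro c f hf
    change X ^ n ∣ toPoly (c • f)
    rw [map_smul, smul_eq_C_mul]
    exact hf.mul_left _
  lie_mem := by
    intro f g hg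
    exact (pow_dvd_pow X (Nat.le_succ n)).trans (dvd_bracket _ _ hg)

lemma mem_filt {n : ℕ} {f : WPos k} : f ∈ filt k n ↔ X ^ n ∣ toPoly f := Iff.rfl

lemma lcs_le_filt (n : ℕ) :
    LieModule.lowerCentralSeries k (WPos k) (WPos k) n ≤ filt k n := by
  induction n with
  | zero =>
    intro f _
    rw [mem_filt]
    simp
  | succ n ih =>
    rw [LieModule.lowerCentralSeries_succ, LieSubmodule.lieIdeal_oper_eq_span,
      LieSubmodule.lieSpan_le]
    rintro _ ⟨f, g, rfl⟩
    exact dvd_bracket _ _ (mem_filt.mp (ih g.2))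

lemma nilp_quot (n : ℕ) : LieRing.IsNilpotent (WPos k ⧸ filt k n) := by
  refine (LieModule.isNilpotent_iff k (WPos k ⧸ filt k n) (WPos k ⧸ filt k n)).mpr ⟨n, ?_⟩
  have h1 : LieModule.lowerCentralSeries k (WPos k) (WPos k ⧸ filt k n) n = ⊥ := by
    rw [← LieModule.map_lowerCentralSeries_eq n (LieSubmodule.Quotient.surjective_mk' (filt k n)),
      LieSubmodule.Quotient.map_mk'_eq_bot_le]
    exact lcs_le_filt n
  have h2 := coe_lowerCentralSeries_ideal_quot_eq (R := k) (L := WPos k) (I := filt k n) n
  rw [h1] at h2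
  rw [← LieSubmodule.toSubmodule_inj, ← h2]
  rfl

lemma exists_filt (f : WPos k) (hf : f ≠ 0) : ∃ n, f ∉ filt k n := by
  have hf0 : toPoly f ≠ 0 := by
    intro h
    exact hf (toPoly.injective (by rw [h, map_zero]))
  refine ⟨(toPoly f).natDegree + 1, fun h => ?_⟩
  have := natDegree_le_of_dvd (mem_filt.mp h) hf0
  rw [natDegree_X_pow] at this
  omega

lemma infinite_dim : ¬ FiniteDimensional k (WPos k) := by
  intro h
  have : FiniteDimensional k k[X] := h
  exact Polynomial.not_finite this

/-- **Infinite-dimensional Noetherian residually nilpotent Lie algebras exist.**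
Over every field of characteristic zero there is an infinite-dimensional Lie algebra all of whose
ascending chains of subalgebras stabilise and in which every nonzero element survives in some
nilpotent quotient; moreover its lower central series has zero intersection. -/
theorem result (k : Type) [Field k] [CharZero k] :
    ∃ (L : Type) (_ : LieRing L) (_ : LieAlgebra k L),
      ¬ FiniteDimensional k L ∧
      (∀ H : ℕ →o LieSubalgebra k L, ∃ n, ∀ m, n ≤ m → H n = H m) ∧
      (∀ x : L, x ≠ 0 → ∃ I : LieIdeal k L, x ∉ I ∧ LieRing.IsNilpotent (L ⧸ I)) := by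
  refine ⟨WPos k, inferInstance, inferInstance, infinite_dim, ?_, ?_⟩
  · exact (wellFoundedGT_iff_monotone_chain_condition).mp wpos_noetherian
  · intro x hx
    obtain ⟨n, hn⟩ := exists_filt x hx
    exact ⟨filt k n, hn, nilp_quot n⟩

end Pool.Agent.Results.MP_d0ec72_al.NoethResNilp
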